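import Pool.Agent.H30.ShufC

open Pool.Agent.H30.Shuf

theorem Pool.Agent.Results.MP_732884_lc.Undec.result :
    ¬ ∃ f : FA × FA × CM → Bool, Computable f ∧ ∀ (A B : FA) (M : CM), IsDCM M →
      (f (A, B, M) = true ↔ A.lang ⊆ shuffle B.lang M.lang) :=
  undec (· ⊆ ·) fun _ _ _ => Iff.rfl
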